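import Pool.Agent.Helper78_E.Stmts4

/-!
# GRO: growth of the exponential integral from a bound of the resolvent
-/

namespace Pool.Agent.H78E.H51

open MeasureTheory Filter Topology Complex Metric

/-- the sine on the upper arcs -/
lemma sin_upper {s θ : ℝ} (hs0 : 0 ≤ s) (hs : s ≤ Real.pi / 2)
    (h : (0 ≤ θ ∧ θ ≤ Real.pi + s) ∨ (2 * Real.pi - s ≤ θ ∧ θ ≤ 2 * Real.pi)) :
    -Real.sin s ≤ Real.sin θ := by
  have hss : 0 ≤ Real.sin s := Real.sin_nonneg_of_nonneg_of_le_pi hs0 (by linarith [Real.pi_pos])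
  rcases h with ⟨h1, h2⟩ | ⟨h1, h2⟩
  · rcases le_total θ Real.pi with h3 | h3
    · have := Real.sin_nonneg_of_nonneg_of_le_pi h1 h3
      linarith
    · have e : Real.sin θ = -Real.sin (θ - Real.pi) := by rw [Real.sin_sub_pi]; ring
      rw [e]
      have : Real.sin (θ - Real.pi) ≤ Real.sin s :=
        Real.sin_le_sin_of_le_of_le_pi_div_two (by linarith [Real.pi_pos]) hs (by linarith)
      linarith
  · have e : Real.sin θ = -Real.sin (2 * Real.pi - θ) := by rw [Real.sin_two_pi_sub]; ring
    rw [e]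
    have : Real.sin (2 * Real.pi - θ) ≤ Real.sin s :=
      Real.sin_le_sin_of_le_of_le_pi_div_two (by linarith [Real.pi_pos]) hs (by linarith)
    linarith

/-- the sine on the lower arc -/
lemma sin_lower {s θ : ℝ} (hs0 : 0 ≤ s) (h1 : Real.pi + s ≤ θ)
    (h2 : θ ≤ 2 * Real.pi - s) : Real.sin θ ≤ -Real.sin s := by
  have e : Real.sin θ = -Real.sin (θ - Real.pi) := by rw [Real.sin_sub_pi]; ring
  rw [e, neg_le_neg_iff]
  rcases le_total (θ - Real.pi) (Real.pi / 2) with h3 | h3
  · exact Real.sin_le_sin_of_le_of_le_pi_div_two (by linarith [Real.pi_pos]) h3 (by linarith)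
  · rw [← Real.sin_pi_sub (θ - Real.pi)]
    exact Real.sin_le_sin_of_le_of_le_pi_div_two (by linarith [Real.pi_pos]) (by linarith)
      (by linarith)

theorem gro : GroStmt := by
  intro ψ c ρ M B a t hρ ha ht hM hB hd hc hbM hbB
  have hat : 0 < a * t := mul_pos ha ht
  set r := Real.sqrt (a * t) with hr
  have hr0 : 0 ≤ r := Real.sqrt_nonneg _
  have hr2 : r * r = a * t := Real.mul_self_sqrt hat.le
  have hrpos : 0 < r := Real.sqrt_pos.2 hat
  -- ε = r / t
  set ε := r / t with hε
  have hε0 : 0 < ε := div_pos hrpos ht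
  have htε : t * ε = r := by rw [hε]; field_simp
  have haε : a / ε = r := by
    rw [hε]
    field_simp
    rw [pow_two, hr2]
  set f : ℂ → ℂ := fun z => Complex.exp (Complex.I * z * (t : ℂ)) * ψ z with hf
  have nexp : ∀ z : ℂ, ‖Complex.exp (Complex.I * z * (t : ℂ))‖ = Real.exp (-(t * z.im)) := by
    intro z
    rw [Complex.norm_exp]
    congr 1
    simp
    ring
  -- bound where im z ≥ -ε
  have b1 : ∀ z : ℂ, ‖z - (c : ℂ)‖ = ρ → -ε ≤ z.im → ‖f z‖ ≤ Real.exp r * M := by
    intro z hz hi
    rw [hf]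
    simp only
    rw [norm_mul, nexp]
    refine mul_le_mul (Real.exp_le_exp.2 ?_) (hbM z hz) (norm_nonneg _) (Real.exp_pos _).le
    rw [← htε]; nlinarith
  have e1 : 1 ≤ Real.exp r := Real.one_le_exp hr0
  have e2 : Real.exp (2 * r) = Real.exp r * Real.exp r := by rw [← Real.exp_add]; ring_nf
  have hpi := Real.pi_pos
  change ‖∮ z in C((c : ℂ), ρ), f z‖ ≤ _
  rcases le_or_gt ρ ε with hρε | hρε
  · have h1 : ∀ z ∈ sphere (c : ℂ) ρ, ‖f z‖ ≤ Real.exp r * M := by
      intro z hz
      have hz' : ‖z - (c : ℂ)‖ = ρ := by rwa [mem_sphere, dist_eq_norm] at hz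
      refine b1 z hz' ?_
      have h2 := Complex.abs_im_le_norm (z - (c : ℂ))
      rw [hz'] at h2
      simp only [Complex.sub_im, Complex.ofReal_im, sub_zero] at h2
      have := (abs_le.1 h2).1
      linarith
    refine (circleIntegral.norm_integral_le_of_norm_le_const hρ.le h1).trans ?_
    rw [e2]
    have h3 : Real.exp r * M ≤ (M + B) * (Real.exp r * Real.exp r) := by
      have h4 : Real.exp r * M ≤ Real.exp r * Real.exp r * M := by
        have := Real.exp_pos r
        nlinarith [mul_nonneg (Real.exp_pos r).le hM]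
      have h5 : 0 ≤ B * (Real.exp r * Real.exp r) := by positivity
      nlinarith
    have h6 : 0 ≤ 2 * Real.pi * ρ := by positivity
    calc 2 * Real.pi * ρ * (Real.exp r * M) ≤ 2 * Real.pi * ρ * ((M + B) * (Real.exp r * Real.exp r)) :=
          mul_le_mul_of_nonneg_left h3 h6
      _ = _ := by ring
  · -- the angle
    set s := Real.arcsin (ε / ρ) with hs
    have hq0 : 0 < ε / ρ := div_pos hε0 hρ
    have hq1 : ε / ρ < 1 := (div_lt_one hρ).2 hρε
    have hsin : Real.sin s = ε / ρ := Real.sin_arcsin (by linarith) hq1.le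
    have hs0 : 0 ≤ s := Real.arcsin_nonneg.2 hq0.le
    have hs1 : s < Real.pi / 2 := Real.arcsin_lt_pi_div_two.2 hq1
    set γ : ℝ → ℂ := circleMap (c : ℂ) ρ with hγ
    have him : ∀ θ, (γ θ).im = ρ * Real.sin θ := by
      intro θ
      simp only [hγ, circleMap]
      simp
    have hnorm : ∀ θ, ‖γ θ - (c : ℂ)‖ = ρ := by
      intro θ
      have := circleMap_mem_sphere (c : ℂ) hρ.le θ
      rwa [mem_sphere, dist_eq_norm] at this
    have hcγ : Continuous γ := continuous_circleMap _ _
    have hcf : Continuous fun θ => f (γ θ) := by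
      rw [continuous_iff_continuousAt]
      intro θ
      have h1 : ContinuousAt f (γ θ) := by
        refine ContinuousAt.mul ?_ (hc _ (hnorm θ))
        fun_prop
      exact ContinuousAt.comp (f := γ) (g := f) h1 hcγ.continuousAt
    have hcd : Continuous fun θ => deriv γ θ := by
      have : (fun θ => deriv γ θ) = fun θ => circleMap 0 ρ θ * Complex.I := by
        ext θ; exact deriv_circleMap _ _ _
      rw [this]
      exact (continuous_circleMap 0 ρ).mul continuous_const
    set g : ℝ → ℂ := fun θ => deriv γ θ • f (γ θ) with hg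
    have hcg : Continuous g := hcd.smul hcf
    have hdn : ∀ θ, ‖deriv γ θ‖ = ρ := by
      intro θ
      rw [hγ, deriv_circleMap, norm_mul, norm_circleMap_zero, Complex.norm_I, mul_one,
        abs_of_pos hρ]
    have hint : ∀ x y : ℝ, IntervalIntegrable g volume x y := fun x y =>
      hcg.intervalIntegrable x y
    have hsplit : (∮ z in C((c : ℂ), ρ), f z) = (∫ θ in (0 : ℝ)..(Real.pi + s), g θ)
        + (∫ θ in (Real.pi + s)..(2 * Real.pi - s), g θ)
        + ∫ θ in (2 * Real.pi - s)..(2 * Real.pi), g θ := by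
      rw [intervalIntegral.integral_add_adjacent_intervals (hint _ _) (hint _ _),
        intervalIntegral.integral_add_adjacent_intervals (hint _ _) (hint _ _)]
      rfl
    have hup : ∀ θ, ((0 ≤ θ ∧ θ ≤ Real.pi + s) ∨ (2 * Real.pi - s ≤ θ ∧ θ ≤ 2 * Real.pi)) →
        ‖g θ‖ ≤ ρ * (Real.exp r * M) := by
      intro θ hθ
      rw [hg]
      simp only
      rw [norm_smul, hdn]
      refine mul_le_mul_of_nonneg_left (b1 _ (hnorm θ) ?_) hρ.le
      rw [him]
      have := sin_upper hs0 hs1.le hθ
      rw [hsin] at this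
      have h2 := mul_le_mul_of_nonneg_left this hρ.le
      have h3 : ρ * -(ε / ρ) = -ε := by field_simp
      linarith
    have I1 : ‖∫ θ in (0 : ℝ)..(Real.pi + s), g θ‖ ≤ ρ * (Real.exp r * M) * (Real.pi + s) := by
      have := intervalIntegral.norm_integral_le_of_norm_le_const (a := 0) (b := Real.pi + s)
        (f := g) (C := ρ * (Real.exp r * M)) (fun θ hθ => by
          rw [Set.uIoc_of_le (by linarith)] at hθ
          exact hup θ (Or.inl ⟨hθ.1.le, hθ.2⟩))
      rwa [sub_zero, abs_of_nonneg (by linarith)] at this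
    have I3 : ‖∫ θ in (2 * Real.pi - s)..(2 * Real.pi), g θ‖ ≤ ρ * (Real.exp r * M) * s := by
      have := intervalIntegral.norm_integral_le_of_norm_le_const (a := 2 * Real.pi - s)
        (b := 2 * Real.pi) (f := g) (C := ρ * (Real.exp r * M)) (fun θ hθ => by
          rw [Set.uIoc_of_le (by linarith)] at hθ
          exact hup θ (Or.inr ⟨hθ.1.le, hθ.2⟩))
      rwa [sub_sub_cancel, abs_of_nonneg hs0] at this
    -- the lower arc
    set R' := ρ ^ 2 / ε with hR'
    have hRε : R' * ε = ρ ^ 2 := by rw [hR']; field_simp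
    have hRρ : ρ ≤ R' := by
      rw [hR', le_div_iff₀ hε0]; nlinarith
    set z0 : ℂ := (c : ℂ) - Complex.I * (R' : ℂ) with hz0
    have hre0 : z0.re = c := by simp [hz0]
    have him0 : z0.im = -R' := by simp [hz0]
    have hballim : ∀ z ∈ ball z0 (R' - ε / 2), z.im < 0 := by
      intro z hz
      rw [mem_ball, dist_eq_norm] at hz
      have h2 := Complex.abs_im_le_norm (z - z0)
      rw [Complex.sub_im, him0] at h2
      have := (abs_le.1 (h2.trans hz.le)).2
      linarith
    have hball : ∀ z : ℂ, ‖z - (c : ℂ)‖ ≤ ρ → z.im ≤ -ε → z ∈ ball z0 (R' - ε / 2) := by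
      intro z hz hi
      rw [mem_ball, dist_eq_norm]
      have h2 : ‖z - (c : ℂ)‖ ^ 2 ≤ ρ ^ 2 := by nlinarith [norm_nonneg (z - (c : ℂ))]
      have h3 : ‖z - (c : ℂ)‖ ^ 2 = (z.re - c) ^ 2 + z.im ^ 2 := by
        rw [Complex.sq_norm, Complex.normSq_apply]
        simp; ring
      have h4 : ‖z - z0‖ ^ 2 = (z.re - c) ^ 2 + (z.im + R') ^ 2 := by
        rw [Complex.sq_norm, Complex.normSq_apply, Complex.sub_re, Complex.sub_im, hre0, him0]
        ring
      have h5 : ‖z - z0‖ ^ 2 < (R' - ε / 2) ^ 2 := by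
        rw [h4]
        rw [h3] at h2
        nlinarith
      have h6 : 0 ≤ R' - ε / 2 := by linarith
      exact lt_of_pow_lt_pow_left₀ 2 h6 h5
    have hfd : DifferentiableOn ℂ f (ball z0 (R' - ε / 2)) := by
      intro z hz
      refine DifferentiableAt.differentiableWithinAt ?_
      refine DifferentiableAt.mul (by fun_prop) (hd z (hballim z hz))
    obtain ⟨G, hG⟩ := hfd.isExactOn_ball
    have hlow : ∀ θ, Real.pi + s ≤ θ → θ ≤ 2 * Real.pi - s → γ θ ∈ ball z0 (R' - ε / 2) := by
      intro θ h1 h2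
      refine hball _ (hnorm θ).le ?_
      rw [him]
      have := sin_lower hs0 h1 h2
      rw [hsin] at this
      have h2 := mul_le_mul_of_nonneg_left this hρ.le
      have h3 : ρ * -(ε / ρ) = -ε := by field_simp
      linarith
    have I2e : ∫ θ in (Real.pi + s)..(2 * Real.pi - s), g θ
        = G (γ (2 * Real.pi - s)) - G (γ (Real.pi + s)) := by
      refine intervalIntegral.integral_eq_sub_of_hasDerivAt (f := fun θ => G (γ θ)) (f' := g) ?_
        (hint _ _)
      intro θ hθ
      rw [Set.uIcc_of_le (by linarith)] at hθ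
      have h1 := hG _ (hlow θ hθ.1 hθ.2)
      have h2 : HasDerivAt γ (deriv γ θ) θ :=
        (differentiable_circleMap (c : ℂ) ρ θ).hasDerivAt
      have h3 := HasDerivAt.scomp θ h1 h2
      exact h3
    have I2 : ‖∫ θ in (Real.pi + s)..(2 * Real.pi - s), g θ‖
        ≤ (Real.exp r * (B * Real.exp r)) * (2 * ρ) := by
      rw [I2e]
      have hseg : ∀ z ∈ segment ℝ (γ (Real.pi + s)) (γ (2 * Real.pi - s)),
          ‖z - (c : ℂ)‖ ≤ ρ ∧ z.im = -ε := by
        intro z hz
        constructor
        · have h1 : segment ℝ (γ (Real.pi + s)) (γ (2 * Real.pi - s)) ⊆ closedBall (c : ℂ) ρ :=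
            (convex_closedBall _ _).segment_subset
              (by rw [mem_closedBall, dist_eq_norm]; exact (hnorm _).le)
              (by rw [mem_closedBall, dist_eq_norm]; exact (hnorm _).le)
          have := h1 hz
          rwa [mem_closedBall, dist_eq_norm] at this
        · obtain ⟨x, y, _, _, hxy, rfl⟩ := hz
          have e3 : (γ (Real.pi + s)).im = -ε := by
            rw [him, add_comm, Real.sin_add_pi, hsin]; field_simp
          have e4 : (γ (2 * Real.pi - s)).im = -ε := by
            rw [him, Real.sin_two_pi_sub, hsin]; field_simp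
          simp only [Complex.add_im, Complex.smul_im, e3, e4, smul_eq_mul]
          rw [← add_mul, hxy, one_mul]
      have hmv := Convex.norm_image_sub_le_of_norm_hasDerivWithin_le (𝕜 := ℂ) (f := G) (f' := f)
        (s := segment ℝ (γ (Real.pi + s)) (γ (2 * Real.pi - s)))
        (C := Real.exp r * (B * Real.exp r)) (fun z hz =>
          (hG z (hball z (hseg z hz).1 (hseg z hz).2.le)).hasDerivWithinAt) (fun z hz => by
          obtain ⟨h1, h2⟩ := hseg z hz
          rw [hf]
          simp only
          rw [norm_mul, nexp]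
          have h3 := hbB z h1 (by rw [h2]; linarith)
          rw [h2, abs_neg, abs_of_pos hε0, haε] at h3
          refine mul_le_mul (Real.exp_le_exp.2 ?_) h3 (norm_nonneg _) (Real.exp_pos _).le
          rw [h2, ← htε]; ring_nf; rfl) (convex_segment _ _)
        (left_mem_segment _ _ _) (right_mem_segment _ _ _)
      refine hmv.trans ?_
      refine mul_le_mul_of_nonneg_left ?_ (by positivity)
      calc ‖γ (2 * Real.pi - s) - γ (Real.pi + s)‖
          = ‖(γ (2 * Real.pi - s) - c) - (γ (Real.pi + s) - c)‖ := by congr 1; ring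
        _ ≤ ‖γ (2 * Real.pi - s) - c‖ + ‖γ (Real.pi + s) - c‖ := norm_sub_le _ _
        _ = 2 * ρ := by rw [hnorm, hnorm]; ring
    rw [hsplit]
    refine (norm_add₃_le).trans ?_
    have e5 : Real.exp r * M ≤ Real.exp (2 * r) * M := by
      rw [e2]
      nlinarith [mul_nonneg (Real.exp_pos r).le hM]
    have e6 : ρ * (Real.exp r * M) * (Real.pi + s) + (Real.exp r * (B * Real.exp r)) * (2 * ρ)
        + ρ * (Real.exp r * M) * s ≤ 2 * Real.pi * ρ * (M + B) * Real.exp (2 * r) := by
      have h1 : ρ * (Real.exp r * M) * (Real.pi + s) + ρ * (Real.exp r * M) * s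
          ≤ ρ * (Real.exp (2 * r) * M) * (2 * Real.pi) := by
        calc ρ * (Real.exp r * M) * (Real.pi + s) + ρ * (Real.exp r * M) * s
            = ρ * (Real.exp r * M) * (Real.pi + 2 * s) := by ring
          _ ≤ ρ * (Real.exp (2 * r) * M) * (2 * Real.pi) := by
            refine mul_le_mul (mul_le_mul_of_nonneg_left e5 hρ.le) (by linarith) (by linarith)
              (by positivity)
      have h2 : (Real.exp r * (B * Real.exp r)) * (2 * ρ)
          ≤ 2 * Real.pi * ρ * B * Real.exp (2 * r) := by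
        rw [e2]
        have h3 : 0 ≤ ρ * B * (Real.exp r * Real.exp r) := by positivity
        have h4 : (1 : ℝ) ≤ Real.pi := by linarith [Real.pi_gt_three]
        nlinarith
      calc _ = (ρ * (Real.exp r * M) * (Real.pi + s) + ρ * (Real.exp r * M) * s)
            + (Real.exp r * (B * Real.exp r)) * (2 * ρ) := by ring
        _ ≤ ρ * (Real.exp (2 * r) * M) * (2 * Real.pi)
            + 2 * Real.pi * ρ * B * Real.exp (2 * r) := add_le_add h1 h2
        _ = _ := by ring
    linarith

end Pool.Agent.H78E.H51
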