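import Pool.Agent.Helper78_E.Stmts4

/-!
# HARN: division by a bounded analytic function in a disc
-/

namespace Pool.Agent.H78E.H51

open MeasureTheory Filter Topology Complex Metric Real

/-- Harnack's inequality for zero-free functions of norm at most one -/
theorem harnack {G : ℂ → ℂ} {s : ℝ} (hG : AnalyticOnNhd ℂ G (closedBall 0 s))
    (h0 : ∀ u ∈ closedBall (0 : ℂ) s, G u ≠ 0) (h1 : ∀ u ∈ closedBall (0 : ℂ) s, ‖G u‖ ≤ 1)
    {z w : ℂ} (hz : z ∈ ball (0 : ℂ) s) (hw : w ∈ ball (0 : ℂ) s) :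
    (s + ‖z‖) / (s - ‖z‖) * ((s + ‖w‖) / (s - ‖w‖)) * Real.log ‖G w‖ ≤ Real.log ‖G z‖ := by
  have hs : 0 < s := pos_of_mem_ball hz
  have hz' : ‖z‖ < s := by simpa using hz
  have hw' : ‖w‖ < s := by simpa using hw
  have hh : InnerProductSpace.HarmonicOnNhd (fun u => Real.log ‖G u‖) (closedBall 0 s) :=
    fun u hu => (hG u hu).harmonicAt_log_norm (h0 u hu)
  have pz := InnerProductSpace.HarmonicOnNhd.circleAverage_re_herglotzRieszKernel_smul hh hz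
  have pw := InnerProductSpace.HarmonicOnNhd.circleAverage_re_herglotzRieszKernel_smul hh hw
  have hcv : ContinuousOn (fun u => Real.log ‖G u‖) (sphere 0 s) := by
    refine ContinuousOn.log ?_ ?_
    · exact (hG.mono sphere_subset_closedBall).continuousOn.norm
    · intro u hu
      exact norm_ne_zero_iff.2 (h0 u (sphere_subset_closedBall hu))
  have habs : |s| = s := abs_of_pos hs
  have hk : ∀ y ∈ ball (0 : ℂ) s,
      CircleIntegrable ((Complex.re ∘ herglotzRieszKernel 0 y) • fun u => Real.log ‖G u‖) 0 s := by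
    intro y hy
    refine ContinuousOn.circleIntegrable hs.le ?_
    have := continuousOn_herglotzRieszKernel_sphere hy
    rw [habs] at this
    exact (Complex.continuous_re.comp_continuousOn this).smul hcv
  have hi : CircleIntegrable (fun u => Real.log ‖G u‖) 0 s := hcv.circleIntegrable hs.le
  have hneg : ∀ u ∈ sphere (0 : ℂ) s, Real.log ‖G u‖ ≤ 0 := fun u hu =>
    Real.log_nonpos (norm_nonneg _) (h1 u (sphere_subset_closedBall hu))
  set m := circleAverage (fun u => Real.log ‖G u‖) 0 s with hm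
  -- lower bound at z
  have b1 : (s + ‖z‖) / (s - ‖z‖) * m ≤ Real.log ‖G z‖ := by
    rw [← pz, hm, ← smul_eq_mul, ← circleAverage_fun_smul]
    refine circleAverage_mono ?_ (hk z hz) ?_
    · exact hi.const_smul
    · intro x hx
      rw [habs] at hx
      have := re_herglotzRieszKernel_le hx hz
      rw [sub_zero] at this
      simp only [Pi.smul_apply', Function.comp_apply, smul_eq_mul]
      exact mul_le_mul_of_nonpos_right (by
        rw [herglotzRieszKernel_def]; simpa using this) (hneg x hx)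
  have b2 : Real.log ‖G w‖ ≤ (s - ‖w‖) / (s + ‖w‖) * m := by
    rw [← pw, hm, ← smul_eq_mul, ← circleAverage_fun_smul]
    refine circleAverage_mono (hk w hw) ?_ ?_
    · exact hi.const_smul
    · intro x hx
      rw [habs] at hx
      have := le_re_herglotzRieszKernel hx hw
      rw [sub_zero] at this
      simp only [Pi.smul_apply', Function.comp_apply, smul_eq_mul]
      exact mul_le_mul_of_nonpos_right (by
        rw [herglotzRieszKernel_def]; simpa using this) (hneg x hx)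
  have p1 : 0 < s - ‖w‖ := by linarith
  have p2 : 0 < s + ‖w‖ := by have := norm_nonneg w; linarith
  have p3 : 0 < s - ‖z‖ := by linarith
  have p4 : 0 < s + ‖z‖ := by have := norm_nonneg z; linarith
  refine le_trans ?_ b1
  have b3 : (s + ‖w‖) / (s - ‖w‖) * Real.log ‖G w‖ ≤ m := by
    have := mul_le_mul_of_nonneg_left b2 (div_pos p2 p1).le
    refine this.trans (le_of_eq ?_)
    field_simp
  rw [mul_assoc]
  exact mul_le_mul_of_nonneg_left b3 (div_pos p4 p3).le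

/-- division by one factor -/
theorem factor {U : Set ℂ} (hU : IsOpen U) (hcb : closedBall (0 : ℂ) 1 ⊆ U) {ψ G : ℂ → ℂ} {M : ℝ}
    (hψ : DifferentiableOn ℂ ψ U) (hG : DifferentiableOn ℂ G U)
    (h1 : ∀ u ∈ closedBall (0 : ℂ) 1, ‖G u‖ ≤ 1)
    (hM : ∀ u ∈ closedBall (0 : ℂ) 1, ‖ψ u * G u‖ ≤ M) {a : ℂ} (ha : ‖a‖ < 1) (hGa : G a = 0) :
    ∃ G' : ℂ → ℂ, DifferentiableOn ℂ G' U ∧ (∀ u ∈ closedBall (0 : ℂ) 1, ‖G' u‖ ≤ 1) ∧
      (∀ u ∈ closedBall (0 : ℂ) 1, ‖ψ u * G' u‖ ≤ M) ∧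
      ∀ u, ‖G u‖ * ‖1 - (starRingEnd ℂ) a * u‖ = ‖u - a‖ * ‖G' u‖ := by
  have haU : a ∈ U := hcb (by simpa using ha.le)
  have hd : DifferentiableOn ℂ (fun u => dslope G a u * (1 - (starRingEnd ℂ) a * u)) U := by
    refine DifferentiableOn.mul ?_ (by fun_prop)
    exact (differentiableOn_dslope (hU.mem_nhds haU)).2 hG
  have heq : ∀ u, ‖G u‖ * ‖1 - (starRingEnd ℂ) a * u‖
      = ‖u - a‖ * ‖dslope G a u * (1 - (starRingEnd ℂ) a * u)‖ := by
    intro u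
    have := sub_smul_dslope G a u
    rw [hGa, sub_zero, smul_eq_mul] at this
    rw [← this, norm_mul, norm_mul, mul_assoc]
  have hsph : ∀ u ∈ sphere (0 : ℂ) 1, ‖dslope G a u * (1 - (starRingEnd ℂ) a * u)‖ = ‖G u‖ := by
    intro u hu
    have hu1 : ‖u‖ = 1 := by simpa using hu
    have e1 : ‖1 - (starRingEnd ℂ) a * u‖ = ‖u - a‖ := by
      have e2 : 1 - (starRingEnd ℂ) a * u = u * (starRingEnd ℂ) (u - a) := by
        have : u * (starRingEnd ℂ) u = 1 := by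
          rw [Complex.mul_conj, Complex.normSq_eq_norm_sq, hu1]; simp
        rw [map_sub, mul_sub, this]; ring
      rw [e2, norm_mul, hu1, one_mul, Complex.norm_conj]
    have h2 := heq u
    have h3 : 0 < ‖u - a‖ := by
      rw [norm_pos_iff, sub_ne_zero]
      rintro rfl
      linarith
    rw [e1, mul_comm] at h2
    exact (mul_left_cancel₀ h3.ne' h2).symm
  have hcont : ∀ {f : ℂ → ℂ}, DifferentiableOn ℂ f U → DiffContOnCl ℂ f (ball (0 : ℂ) 1) := by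
    intro f hf
    have hcl : closure (ball (0 : ℂ) 1) = closedBall 0 1 := closure_ball _ one_ne_zero
    exact ⟨hf.mono (ball_subset_closedBall.trans hcb), by
      rw [hcl]; exact (hf.mono hcb).continuousOn⟩
  have hmax : ∀ {f : ℂ → ℂ} {C : ℝ}, DifferentiableOn ℂ f U → (∀ u ∈ sphere (0 : ℂ) 1, ‖f u‖ ≤ C) →
      ∀ u ∈ closedBall (0 : ℂ) 1, ‖f u‖ ≤ C := by
    intro f C hf hC u hu
    refine Complex.norm_le_of_forall_mem_frontier_norm_le isBounded_ball (hcont hf) ?_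
      (by rw [closure_ball _ one_ne_zero]; exact hu)
    rw [frontier_ball _ one_ne_zero]
    exact hC
  refine ⟨_, hd, hmax hd fun u hu => ?_, hmax (hψ.mul hd) fun u hu => ?_, heq⟩
  · rw [hsph u hu]
    exact h1 u (sphere_subset_closedBall hu)
  · rw [norm_mul, hsph u hu, ← norm_mul]
    exact hM u (sphere_subset_closedBall hu)

lemma blaschke_bound {a w : ℂ} {s : ℝ} (hs0 : 0 ≤ s) (hs : s < 1) (ha : ‖a‖ ≤ s) (hw : ‖w‖ ≤ s) :
    ‖w - a‖ ^ 2 ≤ (1 - (1 - s ^ 2) ^ 2 / 4) * ‖1 - (starRingEnd ℂ) a * w‖ ^ 2 := by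
  have e1 : ‖1 - (starRingEnd ℂ) a * w‖ ^ 2 - ‖w - a‖ ^ 2 = (1 - ‖a‖ ^ 2) * (1 - ‖w‖ ^ 2) := by
    simp only [Complex.sq_norm, Complex.normSq_apply]
    simp only [Complex.sub_re, Complex.sub_im, Complex.one_re, Complex.one_im, Complex.mul_re,
      Complex.mul_im, Complex.conj_re, Complex.conj_im]
    ring
  have e2 : ‖1 - (starRingEnd ℂ) a * w‖ ≤ 2 := by
    refine (norm_sub_le _ _).trans ?_
    rw [norm_mul, Complex.norm_conj, norm_one]
    have : ‖a‖ * ‖w‖ ≤ 1 * 1 := mul_le_mul (by linarith) (by linarith) (norm_nonneg _) zero_le_one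
    linarith
  have h1 : 1 - s ^ 2 ≤ 1 - ‖a‖ ^ 2 := by nlinarith [norm_nonneg a]
  have h2 : 1 - s ^ 2 ≤ 1 - ‖w‖ ^ 2 := by nlinarith [norm_nonneg w]
  have h3 : 0 ≤ 1 - s ^ 2 := by nlinarith
  have h4 : (1 - s ^ 2) * (1 - s ^ 2) ≤ (1 - ‖a‖ ^ 2) * (1 - ‖w‖ ^ 2) :=
    mul_le_mul h1 h2 h3 (h3.trans h1)
  have h5 : ‖1 - (starRingEnd ℂ) a * w‖ ^ 2 ≤ 4 := by
    nlinarith [norm_nonneg (1 - (starRingEnd ℂ) a * w)]
  have h6 : (1 - s ^ 2) ^ 2 / 4 * ‖1 - (starRingEnd ℂ) a * w‖ ^ 2 ≤ (1 - s ^ 2) ^ 2 := by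
    nlinarith [sq_nonneg (1 - s ^ 2)]
  nlinarith

/-- all zeros in a smaller disc can be divided out -/
theorem divide {U : Set ℂ} (hU : IsOpen U) (hcb : closedBall (0 : ℂ) 1 ⊆ U) {ψ F : ℂ → ℂ} {M : ℝ}
    (hψ : DifferentiableOn ℂ ψ U) (hF : DifferentiableOn ℂ F U)
    (h1 : ∀ u ∈ closedBall (0 : ℂ) 1, ‖F u‖ ≤ 1)
    (hM : ∀ u ∈ closedBall (0 : ℂ) 1, ‖ψ u * F u‖ ≤ M) {w : ℂ} {s : ℝ} (hs0 : 0 ≤ s) (hs : s < 1)
    (hw : ‖w‖ ≤ s) (hFw : F w ≠ 0) :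
    ∃ G : ℂ → ℂ, DifferentiableOn ℂ G U ∧ (∀ u ∈ closedBall (0 : ℂ) 1, ‖G u‖ ≤ 1) ∧
      (∀ u ∈ closedBall (0 : ℂ) 1, ‖ψ u * G u‖ ≤ M) ∧ ‖F w‖ ≤ ‖G w‖ ∧
      ∀ u ∈ closedBall (0 : ℂ) s, G u ≠ 0 := by
  by_contra hcon
  push Not at hcon
  set q := 1 - (1 - s ^ 2) ^ 2 / 4 with hq
  have hs2 : 0 < 1 - s ^ 2 := by nlinarith
  have hq1 : q < 1 := by
    have : 0 < (1 - s ^ 2) ^ 2 / 4 := by positivity
    linarith
  have hq0 : 0 ≤ q := by
    have : (1 - s ^ 2) ^ 2 ≤ 1 := by nlinarith [sq_nonneg s]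
    rw [hq]; linarith
  have key : ∀ n : ℕ, ∃ G : ℂ → ℂ, DifferentiableOn ℂ G U ∧
      (∀ u ∈ closedBall (0 : ℂ) 1, ‖G u‖ ≤ 1) ∧
      (∀ u ∈ closedBall (0 : ℂ) 1, ‖ψ u * G u‖ ≤ M) ∧ ‖F w‖ ^ 2 ≤ q ^ n * ‖G w‖ ^ 2 := by
    intro n
    induction n with
    | zero => exact ⟨F, hF, h1, hM, by simp⟩
    | succ n ih =>
      obtain ⟨G, g1, g2, g3, g4⟩ := ih
      have hqn : q ^ n ≤ 1 := pow_le_one₀ hq0 hq1.le
      have g5 : ‖F w‖ ≤ ‖G w‖ := by
        have : ‖F w‖ ^ 2 ≤ ‖G w‖ ^ 2 := by nlinarith [sq_nonneg ‖G w‖]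
        exact (pow_le_pow_iff_left₀ (norm_nonneg _) (norm_nonneg _) two_ne_zero).1 this
      obtain ⟨a, ha, hGa⟩ := hcon G g1 g2 g3 g5
      have ha' : ‖a‖ ≤ s := by simpa using ha
      obtain ⟨G', k1, k2, k3, k4⟩ := factor hU hcb hψ g1 g2 g3 (lt_of_le_of_lt ha' hs) hGa
      refine ⟨G', k1, k2, k3, ?_⟩
      have b := blaschke_bound hs0 hs ha' hw
      have e := k4 w
      have hpos : 0 < ‖1 - (starRingEnd ℂ) a * w‖ := by
        rw [norm_pos_iff]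
        intro h0
        have h2 : (starRingEnd ℂ) a * w = 1 := (sub_eq_zero.1 h0).symm
        have h3 := congrArg norm h2
        rw [norm_mul, Complex.norm_conj, norm_one] at h3
        nlinarith [norm_nonneg a, norm_nonneg w]
      have e2 : ‖G w‖ ^ 2 * ‖1 - (starRingEnd ℂ) a * w‖ ^ 2 = ‖w - a‖ ^ 2 * ‖G' w‖ ^ 2 := by
        rw [← mul_pow, e, mul_pow]
      have e3 : ‖G w‖ ^ 2 ≤ q * ‖G' w‖ ^ 2 := by
        have h2 : 0 < ‖1 - (starRingEnd ℂ) a * w‖ ^ 2 := by positivity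
        refine le_of_mul_le_mul_right ?_ h2
        rw [e2]
        calc ‖w - a‖ ^ 2 * ‖G' w‖ ^ 2 ≤ (q * ‖1 - (starRingEnd ℂ) a * w‖ ^ 2) * ‖G' w‖ ^ 2 :=
              mul_le_mul_of_nonneg_right b (sq_nonneg _)
          _ = _ := by ring
      calc ‖F w‖ ^ 2 ≤ q ^ n * ‖G w‖ ^ 2 := g4
        _ ≤ q ^ n * (q * ‖G' w‖ ^ 2) := mul_le_mul_of_nonneg_left e3 (pow_nonneg hq0 n)
        _ = _ := by rw [pow_succ]; ring
  have hpos : 0 < ‖F w‖ ^ 2 := by
    have := norm_pos_iff.2 hFw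
    positivity
  obtain ⟨n, hn⟩ := exists_pow_lt_of_lt_one hpos hq1
  obtain ⟨G, g1, g2, g3, g4⟩ := key n
  have hwb : w ∈ closedBall (0 : ℂ) 1 := by simpa using hw.trans hs.le
  have h2 : ‖G w‖ ^ 2 ≤ 1 := by
    have := g2 w hwb
    nlinarith [norm_nonneg (G w)]
  nlinarith [pow_nonneg hq0 n]

/-- the inequality in the unit disc -/
theorem harn_unit {ψ F : ℂ → ℂ} {M : ℝ} (hF : AnalyticOnNhd ℂ F (closedBall 0 1))
    (hψ : AnalyticOnNhd ℂ ψ (closedBall 0 1)) (h1 : ∀ u ∈ closedBall (0 : ℂ) 1, ‖F u‖ ≤ 1)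
    (hM : ∀ u ∈ closedBall (0 : ℂ) 1, ‖ψ u * F u‖ ≤ M) {z w : ℂ} (hz : ‖z‖ < 1) (hw : ‖w‖ < 1)
    (hFw : F w ≠ 0) :
    ‖ψ z‖ ≤ M * Real.exp ((1 + ‖z‖) / (1 - ‖z‖) * ((1 + ‖w‖) / (1 - ‖w‖)) *
      (-Real.log ‖F w‖)) := by
  set U : Set ℂ := {u | AnalyticAt ℂ F u} ∩ {u | AnalyticAt ℂ ψ u} with hUdef
  have hU : IsOpen U := (isOpen_analyticAt ℂ F).inter (isOpen_analyticAt ℂ ψ)
  have hcb : closedBall (0 : ℂ) 1 ⊆ U := fun u hu => ⟨hF u hu, hψ u hu⟩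
  have dF : DifferentiableOn ℂ F U := fun u hu => hu.1.differentiableAt.differentiableWithinAt
  have dψ : DifferentiableOn ℂ ψ U := fun u hu => hu.2.differentiableAt.differentiableWithinAt
  have hM0 : 0 ≤ M := (norm_nonneg _).trans (hM 0 (by simp))
  have key : ∀ s : ℝ, max ‖z‖ ‖w‖ < s → s < 1 → ‖ψ z‖ ≤ M * Real.exp
      ((s + ‖z‖) / (s - ‖z‖) * ((s + ‖w‖) / (s - ‖w‖)) * (-Real.log ‖F w‖)) := by
    intro s hs1 hs2
    have hzs : ‖z‖ < s := lt_of_le_of_lt (le_max_left _ _) hs1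
    have hws : ‖w‖ < s := lt_of_le_of_lt (le_max_right _ _) hs1
    have hs0 : 0 ≤ s := (norm_nonneg z).trans hzs.le
    obtain ⟨G, g1, g2, g3, g4, g5⟩ := divide hU hcb dψ dF h1 hM hs0 hs2 hws.le hFw
    have hsub : closedBall (0 : ℂ) s ⊆ closedBall 0 1 := closedBall_subset_closedBall hs2.le
    have hGa : AnalyticOnNhd ℂ G (closedBall 0 s) := fun u hu =>
      g1.analyticAt (hU.mem_nhds (hcb (hsub hu)))
    have hh := harnack hGa g5 (fun u hu => g2 u (hsub hu)) (z := z) (w := w) (by simpa using hzs)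
      (by simpa using hws)
    have hGz : 0 < ‖G z‖ := norm_pos_iff.2 (g5 z (by simpa using hzs.le))
    have hk : 0 ≤ (s + ‖z‖) / (s - ‖z‖) * ((s + ‖w‖) / (s - ‖w‖)) := by
      have := norm_nonneg z
      have := norm_nonneg w
      exact mul_nonneg (div_nonneg (by linarith) (by linarith))
        (div_nonneg (by linarith) (by linarith))
    have hl : Real.log ‖F w‖ ≤ Real.log ‖G w‖ := Real.log_le_log (norm_pos_iff.2 hFw) g4
    have h2 : -Real.log ‖G z‖ ≤ (s + ‖z‖) / (s - ‖z‖) * ((s + ‖w‖) / (s - ‖w‖)) *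
        (-Real.log ‖F w‖) := by
      have := mul_le_mul_of_nonneg_left hl hk
      linarith
    have h3 : ‖ψ z‖ * ‖G z‖ ≤ M := by
      rw [← norm_mul]; exact g3 z (by simpa using hz.le)
    calc ‖ψ z‖ ≤ M / ‖G z‖ := (le_div_iff₀ hGz).2 h3
      _ = M * Real.exp (-Real.log ‖G z‖) := by
        rw [Real.exp_neg, Real.exp_log hGz]; rfl
      _ ≤ _ := mul_le_mul_of_nonneg_left (Real.exp_le_exp.2 h2) hM0
  have hz' : (1 : ℝ) - ‖z‖ ≠ 0 := by linarith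
  have hw' : (1 : ℝ) - ‖w‖ ≠ 0 := by linarith
  have hcont : ContinuousAt (fun s : ℝ => M * Real.exp
      ((s + ‖z‖) / (s - ‖z‖) * ((s + ‖w‖) / (s - ‖w‖)) * (-Real.log ‖F w‖))) 1 := by
    refine ContinuousAt.mul continuousAt_const (ContinuousAt.rexp ?_)
    refine ContinuousAt.mul (ContinuousAt.mul ?_ ?_) continuousAt_const
    · exact ContinuousAt.div (by fun_prop) (by fun_prop) hz'
    · exact ContinuousAt.div (by fun_prop) (by fun_prop) hw'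
  have hlim : Tendsto (fun s : ℝ => M * Real.exp
      ((s + ‖z‖) / (s - ‖z‖) * ((s + ‖w‖) / (s - ‖w‖)) * (-Real.log ‖F w‖))) (𝓝[<] 1)
      (𝓝 (M * Real.exp ((1 + ‖z‖) / (1 - ‖z‖) * ((1 + ‖w‖) / (1 - ‖w‖)) *
      (-Real.log ‖F w‖)))) := hcont.tendsto.mono_left nhdsWithin_le_nhds
  refine ge_of_tendsto hlim ?_
  have h2 : ∀ᶠ s : ℝ in 𝓝[<] 1, max ‖z‖ ‖w‖ < s :=
    (lt_mem_nhds (max_lt hz hw)).filter_mono nhdsWithin_le_nhds
  filter_upwards [h2, self_mem_nhdsWithin] with s hs1 hs2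
  exact key s hs1 hs2

theorem harn : HarnStmt := by
  intro c ρ F ψ M z w hρ hF hψ h1 hM hz hw hFw
  have hρc : (ρ : ℂ) ≠ 0 := by exact_mod_cast hρ.ne'
  have hmap : ∀ u ∈ closedBall (0 : ℂ) 1, c + (ρ : ℂ) * u ∈ closedBall c ρ := by
    intro u hu
    have hu' : ‖u‖ ≤ 1 := by simpa using hu
    rw [mem_closedBall, dist_eq_norm, add_sub_cancel_left, norm_mul, Complex.norm_real,
      Real.norm_of_nonneg hρ.le]
    nlinarith
  have ha : ∀ (f : ℂ → ℂ), AnalyticOnNhd ℂ f (closedBall c ρ) →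
      AnalyticOnNhd ℂ (fun u => f (c + (ρ : ℂ) * u)) (closedBall 0 1) := by
    intro f hf u hu
    have h2 : AnalyticAt ℂ (fun u : ℂ => c + (ρ : ℂ) * u) u := by fun_prop
    exact AnalyticAt.fun_comp (hf _ (hmap u hu)) h2
  have hn : ∀ y : ℂ, ‖(y - c) / (ρ : ℂ)‖ = ‖y - c‖ / ρ := by
    intro y
    rw [norm_div, Complex.norm_real, Real.norm_of_nonneg hρ.le]
  have hy : ∀ y : ℂ, c + (ρ : ℂ) * ((y - c) / (ρ : ℂ)) = y := by
    intro y
    rw [mul_div_cancel₀ _ hρc]; ring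
  have hlt : ∀ y ∈ ball c ρ, ‖(y - c) / (ρ : ℂ)‖ < 1 := by
    intro y hy'
    rw [hn, div_lt_one hρ]
    simpa [dist_eq_norm] using hy'
  have key := harn_unit (M := M) (ha F hF) (ha ψ hψ) (fun u hu => h1 _ (hmap u hu))
    (fun u hu => hM _ (hmap u hu)) (hlt z hz) (hlt w hw) (by
      rw [hy]; exact hFw)
  simp only [hy, hn] at key
  have hfr : ∀ y : ℂ, (1 + ‖y - c‖ / ρ) / (1 - ‖y - c‖ / ρ) = (ρ + ‖y - c‖) / (ρ - ‖y - c‖) := by
    intro y
    rw [show (1 : ℝ) + ‖y - c‖ / ρ = (ρ + ‖y - c‖) / ρ by field_simp,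
      show (1 : ℝ) - ‖y - c‖ / ρ = (ρ - ‖y - c‖) / ρ by field_simp,
      div_div_div_cancel_right₀ hρ.ne']
  rw [hfr, hfr] at key
  exact key

end Pool.Agent.H78E.H51
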