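import Pool.Agent.Helper78_E.Stmts4
import Pool.Agent.Helper92_E.Riesz

/-!
# RIEC: multiplicativity of the functional calculus of a pseudo-resolvent
-/

namespace Pool.Agent.H78E.H51

open MeasureTheory Filter Topology Complex Metric

theorem riec : RiecStmt := by
  intro A _ _ _ N c ρ1 ρ2 h1 h2 hρ1 hρ hN hres d1 d2
  have hρ2 : 0 < ρ2 := hρ1.trans hρ
  -- continuity on circles
  have hcN : ∀ r, ρ1 ≤ r → r ≤ ρ2 → ContinuousOn N (sphere c r) := by
    intro r hr1 hr2 l hl
    have hl' : ‖l - c‖ = r := by rwa [mem_sphere, dist_eq_norm] at hl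
    exact (hN l (by rw [hl']; exact hr1) (by rw [hl']; exact hr2)).continuousAt.continuousWithinAt
  have hint : ∀ (h : ℂ → ℂ), Differentiable ℂ h → ∀ r, ρ1 ≤ r → r ≤ ρ2 →
      CircleIntegrable (fun z => h z • N z) c r := by
    intro h hd r hr1 hr2
    exact (hd.continuous.continuousOn.smul (hcN r hr1 hr2)).circleIntegrable (hρ1.le.trans hr1)
  have hsame : ∀ (h : ℂ → ℂ), Differentiable ℂ h →
      (∮ z in C(c, ρ2), h z • N z) = ∮ z in C(c, ρ1), h z • N z := by
    intro h hd
    refine circleIntegral_eq_of_differentiable_on_annulus_off_countable hρ1 hρ.le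
      Set.countable_empty ?_ ?_
    · intro l hl
      have hl1 : ‖l - c‖ ≤ ρ2 := by
        have := hl.1
        rwa [mem_closedBall, dist_eq_norm] at this
      have hl2 : ρ1 ≤ ‖l - c‖ := by
        have := hl.2
        rw [mem_ball, dist_eq_norm] at this
        exact not_lt.1 this
      exact ((hd l).continuousAt.smul (hN l hl2 hl1).continuousAt).continuousWithinAt
    · intro l hl
      have hl1 : ‖l - c‖ < ρ2 := by
        have := hl.1.1
        rwa [mem_ball, dist_eq_norm] at this
      have hl2 : ρ1 < ‖l - c‖ := by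
        have := hl.1.2
        rw [mem_closedBall, dist_eq_norm] at this
        exact not_le.1 this
      exact (hd l).smul (hN l hl2.le hl1.le)
  set H : ℂ → A := fun w => ∮ z in C(c, ρ2), (z - w)⁻¹ • (h1 z • N z) with hH
  have dH : DifferentiableOn ℂ H (ball c ρ2) := by
    have h3 := H92.cauchy_diff hρ2 (hint h1 d1 ρ2 hρ.le le_rfl)
    have h4 := h3.const_smul (2 * (Real.pi : ℂ) * Complex.I)
    refine h4.congr fun w _ => ?_
    simp only [Pi.smul_apply, hH]
    rw [smul_smul, mul_inv_cancel₀ Complex.two_pi_I_ne_zero, one_smul]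
  set J := ∮ z in C(c, ρ2), h1 z • N z with hJ
  -- the key identity on the inner circle
  have key : ∀ w ∈ sphere c ρ1, J * N w = (2 * (Real.pi : ℂ) * Complex.I * h1 w) • N w - H w := by
    intro w hw
    have hw1 : ‖w - c‖ = ρ1 := by rwa [mem_sphere, dist_eq_norm] at hw
    have hwb : w ∈ ball c ρ2 := by
      rw [mem_ball, dist_eq_norm, hw1]; exact hρ
    have e1 : J * N w = ∮ z in C(c, ρ2), (h1 z • N z) * N w := by
      have := H92.clm_circle ((ContinuousLinearMap.mul ℂ A).flip (N w))
        (hint h1 d1 ρ2 hρ.le le_rfl)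
      simpa using this
    have hinvc : ContinuousOn (fun l : ℂ => (l - w)⁻¹) (sphere c ρ2) := by
      refine ContinuousOn.inv₀ (by fun_prop) (fun l hl h => ?_)
      rw [sub_eq_zero] at h
      subst h
      rw [mem_sphere] at hl
      rw [mem_ball] at hwb
      linarith
    have e2 : (∮ z in C(c, ρ2), (h1 z • N z) * N w) =
        ∮ z in C(c, ρ2), (((z - w)⁻¹ • h1 z) • N w - (z - w)⁻¹ • (h1 z • N z)) := by
      refine circleIntegral.integral_congr hρ2.le (fun z hz => ?_)
      have hz1 : ‖z - c‖ = ρ2 := by rwa [mem_sphere, dist_eq_norm] at hz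
      have hne : z - w ≠ 0 := by
        intro h
        rw [sub_eq_zero] at h
        subst h
        rw [mem_sphere] at hz
        rw [mem_ball] at hwb
        linarith
      have hr := hres z w (by rw [hz1]; exact hρ.le) hz1.le hw1.ge (by rw [hw1]; exact hρ.le)
      have e3 : N z * N w = (z - w)⁻¹ • (N w - N z) := by
        have : N w - N z = (z - w) • (N z * N w) := by
          rw [← neg_sub (N z), hr, ← neg_smul, neg_sub]
        rw [this, smul_smul, inv_mul_cancel₀ hne, one_smul]
      rw [smul_mul_assoc, e3, smul_sub, smul_sub, smul_smul, smul_smul, smul_smul, smul_eq_mul,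
        mul_comm (h1 z)]
    have i1 : CircleIntegrable (fun z => ((z - w)⁻¹ • h1 z) • N w) c ρ2 :=
      ((hinvc.smul d1.continuous.continuousOn).smul continuousOn_const).circleIntegrable hρ2.le
    have i2 : CircleIntegrable (fun z => (z - w)⁻¹ • (h1 z • N z)) c ρ2 :=
      (hinvc.smul (d1.continuous.continuousOn.smul (hcN ρ2 hρ.le le_rfl))).circleIntegrable hρ2.le
    have e4 : (∮ z in C(c, ρ2), ((z - w)⁻¹ • h1 z) • N w)
        = (2 * (Real.pi : ℂ) * Complex.I * h1 w) • N w := by
      rw [circleIntegral.integral_smul_const]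
      congr 1
      have := DiffContOnCl.circleIntegral_sub_inv_smul (f := h1) (c := c) (R := ρ2) (w := w)
        d1.diffContOnCl hwb
      rw [this, smul_eq_mul]
    rw [e1, e2, circleIntegral.integral_sub i1 i2, e4]
  have e5 : J * (∮ z in C(c, ρ2), h2 z • N z) = ∮ w in C(c, ρ1), h2 w • (J * N w) := by
    rw [hsame h2 d2]
    have := H92.clm_circle (ContinuousLinearMap.mul ℂ A J) (hint h2 d2 ρ1 le_rfl hρ.le)
    simp only [ContinuousLinearMap.mul_apply', mul_smul_comm] at this
    exact this
  have e6 : (∮ w in C(c, ρ1), h2 w • (J * N w)) = ∮ w in C(c, ρ1),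
      ((2 * (Real.pi : ℂ) * Complex.I) • ((h1 w * h2 w) • N w) - h2 w • H w) := by
    refine circleIntegral.integral_congr hρ1.le (fun w hw => ?_)
    rw [key w hw, smul_sub, smul_smul, smul_smul]
    congr 2
    ring
  have j1 : CircleIntegrable (fun w => (2 * (Real.pi : ℂ) * Complex.I) • ((h1 w * h2 w) • N w)) c
      ρ1 := by
    refine ContinuousOn.circleIntegrable hρ1.le ?_
    exact continuousOn_const.smul ((d1.continuous.mul d2.continuous).continuousOn.smul
      (hcN ρ1 le_rfl hρ.le))
  have hHc : ContinuousOn H (closedBall c ρ1) := dH.continuousOn.mono (closedBall_subset_ball hρ)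
  have j2 : CircleIntegrable (fun w => h2 w • H w) c ρ1 :=
    (d2.continuous.continuousOn.smul (hHc.mono sphere_subset_closedBall)).circleIntegrable hρ1.le
  have e7 : (∮ w in C(c, ρ1), h2 w • H w) = 0 := by
    refine Complex.circleIntegral_eq_zero_of_differentiable_on_off_countable hρ1.le
      Set.countable_empty (d2.continuous.continuousOn.smul hHc) ?_
    intro z hz
    exact (d2 z).smul (dH.differentiableAt (isOpen_ball.mem_nhds
      (ball_subset_ball hρ.le hz.1)))
  have e8 := hsame (fun z => h1 z * h2 z) (d1.mul d2)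
  rw [e5, e6, circleIntegral.integral_sub j1 j2, e7, sub_zero, circleIntegral.integral_smul, e8]

end Pool.Agent.H78E.H51
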